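import Pool.Agent.ZPK.StmtsL

/-!
Squad ZPK (MP_6e1a06_nt), row GTP: a pair in equal states.
-/

set_option autoImplicit false

namespace Pool.Agent.ZPK.H28

open Polynomial Pool.Agent.ZPT Pool.Agent.ZP3 Pool.Agent.ZPK

/-- a tame root of unity is unramified -/
theorem tame_ur {p : ℕ} (hp : p.Prime) {K : Type} [NormedField K] {y : K} (hy : Tame p y) :
    Ur p y ∧ ‖y‖ = 1 := by
  obtain ⟨M, hM, hpM, hyM⟩ := hy
  have hn : ‖y‖ = 1 := by
    have h1 : ‖y‖ ^ M = 1 := by rw [← norm_pow, hyM, norm_one]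
    exact (pow_eq_one_iff_of_nonneg (norm_nonneg _) (by omega)).1 h1
  refine ⟨⟨hn.le, M.totient, Nat.totient_pos.2 hM, ?_⟩, hn⟩
  have hc : p.Coprime M := (Nat.Prime.coprime_iff_not_dvd hp).2 hpM
  have h1 : p ^ M.totient ≡ 1 [MOD M] := Nat.ModEq.pow_totient hc
  have h2 : 1 ≤ p ^ M.totient := Nat.one_le_pow _ _ hp.pos
  have h3 : M ∣ p ^ M.totient - 1 := (Nat.modEq_iff_dvd' h2).1 h1.symm
  obtain ⟨c, hc'⟩ := h3
  have h4 : p ^ M.totient = M * c + 1 := by omega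
  rw [h4, pow_succ, pow_mul, hyM, one_pow, one_mul, sub_self, norm_zero]
  positivity

theorem nsub {K : Type} [NormedField K] [IsUltrametricDist K] (a b : K) :
    ‖a - b‖ ≤ max ‖a‖ ‖b‖ := by
  rw [sub_eq_add_neg, ← norm_neg b]
  exact IsUltrametricDist.norm_add_le_max _ _

theorem alg {K : Type} [Field K] {w L D : K} (hw : w ≠ 0) (hL : L ≠ 0) :
    w * (1 + D / (w * L)) * L = w * L + D := by
  field_simp

theorem gtp (urr : ZP3.URRStmt) (thb : ZP3.THBStmt) (spl : ZP3.SPLStmt) (_wtm : ZP3.WTMStmt)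
    (wwn : ZP3.WWNStmt) (_rou : ZP3.ROUStmt) : GtpStmt := by
  intro p hp h7 K _ _ _ hext z l₁ l₂ h ζ ρ hρ hz hz1 hl₁ hl₂ hl hh hζ hmain
  obtain ⟨-, t0, t1, tp, -⟩ := thb p hp (by omega)
  obtain ⟨uadd, -, -, usm, -⟩ := urr p hp K hext
  obtain ⟨y, w, hyw, hy, hw⟩ := spl p hp K ζ hζ
  obtain ⟨hyu, hy1⟩ := tame_ur hp hy
  have hy0 : y ≠ 0 := by
    intro h0; rw [h0, norm_zero] at hy1; exact zero_ne_one hy1
  -- w
  have hw1 : ‖w - 1‖ < 1 := by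
    rcases hw with hw | ⟨k, hk, hwk⟩
    · rw [hw, sub_self, norm_zero]; exact one_pos
    · exact (wwn p hp (by omega) K hext k w hk hwk).2.2.1
  have unorm : ∀ x : K, ‖x - 1‖ < 1 → ‖x‖ = 1 := by
    intro x hx
    have hne : ‖x - 1‖ ≠ ‖(1 : K)‖ := by rw [norm_one]; exact hx.ne
    have h2 := IsUltrametricDist.norm_add_eq_max_of_norm_ne_norm hne
    rw [sub_add_cancel, norm_one, max_eq_right hx.le] at h2
    exact h2
  have hwn : ‖w‖ = 1 := unorm w hw1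
  have hw0 : w ≠ 0 := by
    intro h0; rw [h0, norm_zero] at hwn; exact zero_ne_one hwn
  have lz : ∀ l : K, Ur p l → ‖l * z‖ ≤ ‖z‖ := by
    intro l hl
    rw [norm_mul]
    exact mul_le_of_le_one_left (norm_nonneg _) hl.1
  have n1 : ∀ l : K, Ur p l → ‖1 + l * z‖ = 1 := by
    intro l hl
    refine unorm _ ?_
    rw [add_sub_cancel_left]
    exact lt_of_le_of_lt (lz l hl) hz1
  have hL2 : (1 + l₂ * z) ≠ 0 := by
    intro h0
    have := n1 l₂ hl₂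
    rw [h0, norm_zero] at this; exact zero_ne_one this
  have hθ3 : th p ^ 3 < th p := by
    calc th p ^ 3 < th p ^ 1 := pow_lt_pow_right_of_lt_one₀ t0 t1 (by norm_num)
      _ = th p := pow_one _
  have hρ1 : ρ < 1 := by linarith
  -- ‖h - y‖ ≤ 1/p
  have hhy : ‖h - y‖ ≤ (p : ℝ)⁻¹ := by
    refine usm _ (uadd h y hh.1 hyu).2.2.2 ?_
    have e : h - y = (h * (1 + l₁ * z) - ζ * (1 + l₂ * z)) + (y * (w - 1) +
        (ζ * (l₂ * z) - h * (l₁ * z))) := by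
      rw [hyw]; ring
    rw [e]
    have hζ1 : ‖ζ‖ = 1 := by rw [hyw, norm_mul, hy1, hwn, mul_one]
    refine lt_of_le_of_lt (IsUltrametricDist.norm_add_le_max _ _) (max_lt
      (lt_of_le_of_lt hmain hρ1) (lt_of_le_of_lt (IsUltrametricDist.norm_add_le_max _ _)
      (max_lt ?_ (lt_of_le_of_lt (nsub _ _) (max_lt ?_ ?_)))))
    · rw [norm_mul, hy1, one_mul]; exact hw1
    · rw [norm_mul, hζ1, one_mul]; exact lt_of_le_of_lt (lz l₂ hl₂) hz1
    · rw [norm_mul, hh.2, one_mul]; exact lt_of_le_of_lt (lz l₁ hl₁) hz1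
  -- the difference
  have hd : ‖(1 + l₁ * z) - w * (1 + l₂ * z)‖ ≤ max ρ (p : ℝ)⁻¹ := by
    have e : y * ((1 + l₁ * z) - w * (1 + l₂ * z)) = (h * (1 + l₁ * z) - ζ * (1 + l₂ * z)) -
        (h - y) * (1 + l₁ * z) := by
      rw [hyw]; ring
    have e1 : ‖(1 + l₁ * z) - w * (1 + l₂ * z)‖ = ‖y * ((1 + l₁ * z) - w * (1 + l₂ * z))‖ := by
      rw [norm_mul, hy1, one_mul]
    rw [e1, e]
    refine (nsub _ _).trans (max_le_max hmain ?_)
    rw [norm_mul, n1 l₁ hl₁, mul_one]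
    exact hhy
  have hmz : max ρ (p : ℝ)⁻¹ < ‖z‖ :=
    max_lt (lt_of_lt_of_le (hρ.trans hθ3) hz) (lt_of_lt_of_le (tp.trans hθ3) hz)
  -- the norm of the difference with w = 1
  have hd1 : ‖(1 + l₁ * z) - 1 * (1 + l₂ * z)‖ = ‖z‖ := by
    have e : (1 + l₁ * z) - 1 * (1 + l₂ * z) = (l₁ - l₂) * z := by ring
    rw [e, norm_mul, hl, one_mul]
  have hwz : ‖w - 1‖ = ‖z‖ := by
    have e : (w - 1) * (1 + l₂ * z) = ((1 + l₁ * z) - 1 * (1 + l₂ * z)) +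
        -((1 + l₁ * z) - w * (1 + l₂ * z)) := by ring
    have e1 : ‖w - 1‖ = ‖(w - 1) * (1 + l₂ * z)‖ := by
      rw [norm_mul, n1 l₂ hl₂, mul_one]
    have hlt : ‖-((1 + l₁ * z) - w * (1 + l₂ * z))‖ < ‖(1 + l₁ * z) - 1 * (1 + l₂ * z)‖ := by
      rw [norm_neg, hd1]
      exact lt_of_le_of_lt hd hmz
    rw [e1, e, IsUltrametricDist.norm_add_eq_max_of_norm_ne_norm hlt.ne', max_eq_left hlt.le, hd1]
  rcases hw with hw | ⟨k, hk, hwk⟩
  · exfalso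
    rw [hw, sub_self, norm_zero] at hwz
    rw [← hwz] at hz
    linarith
  obtain ⟨k, rfl⟩ : ∃ k', k = k' + 1 := ⟨k - 1, by omega⟩
  have hW := (wwn p hp (by omega) K hext (k + 1) w hk hwk).1
  refine ⟨k, w, ((1 + l₁ * z) - w * (1 + l₂ * z)) / (w * (1 + l₂ * z)), hwk, ?_, ?_, hwz.symm, ?_⟩
  · rw [norm_div, norm_mul, hwn, n1 l₂ hl₂, mul_one, div_one]
    exact hd
  · rw [alg hw0 hL2]
    ring
  · rw [← hwz]
    exact hW

end Pool.Agent.ZPK.H28
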