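import Pool.Agent.ZPK.StmtsA

/-!
Squad ZPK (MP_6e1a06_nt), row INT: a number field in an ultrametric field.
-/

set_option autoImplicit false

namespace Pool.Agent.ZPK.H28

open Polynomial Pool.Agent.ZPT Pool.Agent.ZP3 Pool.Agent.ZPK
open scoped NumberField nonZeroDivisors

theorem int_norm {F : Type} [Field F] [NumberField F] {K : Type} [NormedField K]
    [IsUltrametricDist K] (ι : F →+* K) (y : 𝓞 F) : ‖ι (y : F)‖ ≤ 1 := by
  have h1 : IsIntegral ℤ (ι (y : F)) := by
    have h0 : IsIntegral ℤ (y : F) := NumberField.RingOfIntegers.isIntegral_coe y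
    exact h0.map (ι.toIntAlgHom)
  have h2 : IsIntegral (NormedField.valuation (K := K)).integer (ι (y : F)) := h1.tower_top
  have h3 := (Valuation.integer.integers (NormedField.valuation (K := K))).mem_of_integral h2
  rw [Valuation.mem_integer_iff, NormedField.valuation_apply] at h3
  exact_mod_cast h3

theorem int_ : IntStmt := by
  intro F _ _ K _ _ ι
  have h1 := int_norm (F := F) (K := K) ι
  refine ⟨h1, fun x hx => ?_⟩
  set A : FractionalIdeal (𝓞 F)⁰ F :=
    FractionalIdeal.spanSingleton _ 1 + FractionalIdeal.spanSingleton _ x with hA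
  have m1 : (1 : F) ∈ A := by
    rw [hA, FractionalIdeal.mem_add]
    exact ⟨1, FractionalIdeal.mem_spanSingleton_self _ _, 0, FractionalIdeal.zero_mem _,
      by rw [add_zero]⟩
  have mx : x ∈ A := by
    rw [hA, FractionalIdeal.mem_add]
    exact ⟨0, FractionalIdeal.zero_mem _, x, FractionalIdeal.mem_spanSingleton_self _ _,
      by rw [zero_add]⟩
  have hA0 : A ≠ 0 := by
    intro h0
    rw [h0, FractionalIdeal.mem_zero_iff] at m1
    exact one_ne_zero m1
  have h2 : A * A⁻¹ = 1 := mul_inv_cancel₀ hA0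
  have h3 : (1 : F) ∈ A * A⁻¹ := by
    rw [h2, FractionalIdeal.mem_one_iff]
    exact ⟨1, map_one _⟩
  rw [hA, add_mul, ← hA, FractionalIdeal.mem_add] at h3
  obtain ⟨i, hi, j, hj, hij⟩ := h3
  rw [FractionalIdeal.mem_singleton_mul] at hi hj
  obtain ⟨d, hd, rfl⟩ := hi
  obtain ⟨d', hd', rfl⟩ := hj
  rw [FractionalIdeal.mem_inv_iff hA0] at hd hd'
  have key : ∀ e : F, (∀ y ∈ A, e * y ∈ (1 : FractionalIdeal (𝓞 F)⁰ F)) →
      ∃ z y : 𝓞 F, (z : F) = e ∧ x * (z : F) = (y : F) := by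
    intro e he
    have e1 := he 1 m1
    have e2 := he x mx
    rw [FractionalIdeal.mem_one_iff] at e1 e2
    obtain ⟨z, hz⟩ := e1
    obtain ⟨y, hy⟩ := e2
    rw [mul_one] at hz
    refine ⟨z, y, hz, ?_⟩
    have hz' : (z : F) = e := hz
    have hy' : (y : F) = e * x := hy
    rw [hz', hy', mul_comm]
  obtain ⟨z, y, hz, hzy⟩ := key d hd
  obtain ⟨z', y', hz', hzy'⟩ := key d' hd'
  have hz1 := h1 z
  have hz1' := h1 z'
  rcases hz1.eq_or_lt with h | h
  · exact ⟨y, z, h, hzy⟩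
  rcases hz1'.eq_or_lt with h' | h'
  · exact ⟨y', z', h', hzy'⟩
  exfalso
  have h4 : ‖ι (1 * d + x * d')‖ = 1 := by rw [hij, map_one, norm_one]
  rw [map_add, one_mul, map_mul, ← hz, ← hz'] at h4
  have h5 := IsUltrametricDist.norm_add_le_max (ι (z : F)) (ι x * ι (z' : F))
  rw [h4, norm_mul] at h5
  have h6 : ‖ι x‖ * ‖ι (z' : F)‖ ≤ ‖ι (z' : F)‖ := mul_le_of_le_one_left (norm_nonneg _) hx
  have h7 : max ‖ι (z : F)‖ (‖ι x‖ * ‖ι (z' : F)‖) < 1 := max_lt h (lt_of_le_of_lt h6 h')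
  linarith

end Pool.Agent.ZPK.H28
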