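import Pool.Agent.ZPK.StmtsD

/-!
Squad ZPK (MP_6e1a06_nt), row ZSM: finite sums of norms and the Dedekind zeta function.
-/

set_option autoImplicit false

namespace Pool.Agent.ZPK.H28

open Filter Topology Ideal NumberField Asymptotics Pool.Agent.ZPK
open scoped nonZeroDivisors

theorem zsm : ZsmStmt := by
  intro F _ _ s hs J hJ
  classical
  set f : ℕ → ℝ := fun n => (Nat.card {I : Ideal (𝓞 F) // absNorm I = n} : ℝ) with hf
  have ht : Tendsto (fun n : ℕ => (∑ k ∈ Finset.Icc 1 n, f k) / (n : ℝ)) atTop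
      (𝓝 (NumberField.dedekindZeta_residue F)) := by
    refine ((Ideal.tendsto_norm_le_div_atTop₀ F).comp tendsto_natCast_atTop_atTop).congr
      fun n ↦ ?_
    simp only [Function.comp_apply, Nat.cast_le, hf, ← Nat.cast_sum]
    congr
    rw [← add_left_inj 1, ← card_norm_le_eq_card_norm_le_add_one,
      show Finset.Icc 1 n = Finset.Ioc 0 n from Finset.Icc_succ_left_eq_Ioc _ _,
      show 1 = Nat.card {I : Ideal (𝓞 F) // absNorm I = 0} by simp [Ideal.absNorm_eq_zero_iff],
      Finset.sum_Ioc_add_eq_sum_Icc (n.zero_le),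
      ← Finset.card_preimage_eq_sum_card_image_eq (fun k _ ↦ finite_setOfPred_absNorm_eq k)]
    simp [Set.coe_eq_subtype]
  have hS : LSeriesSummable (fun n => ((f n : ℝ) : ℂ)) (s : ℂ) := by
    refine LSeriesSummable_of_sum_norm_bigO_and_nonneg (r := 1) ?_ (fun n => Nat.cast_nonneg _)
      zero_le_one (by simpa using hs)
    exact isBigO_atTop_natCast_rpow_of_tendsto_div_rpow (by simpa using ht)
  have hz : NumberField.dedekindZeta F (s : ℂ) = LSeries (fun n => ((f n : ℝ) : ℂ)) (s : ℂ) := by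
    unfold NumberField.dedekindZeta
    congr 1
  have hre : HasSum (fun n => (LSeries.term (fun n => ((f n : ℝ) : ℂ)) (s : ℂ) n).re)
      (NumberField.dedekindZeta F (s : ℂ)).re := by
    rw [hz]
    exact Complex.hasSum_re hS.hasSum
  have hterm : ∀ n : ℕ, n ≠ 0 → (LSeries.term (fun n => ((f n : ℝ) : ℂ)) (s : ℂ) n).re
      = f n * (n : ℝ) ^ (-s) := by
    intro n hn
    rw [LSeries.term_of_ne_zero hn]
    have e : ((n : ℂ)) ^ (s : ℂ) = (((n : ℝ) ^ s : ℝ) : ℂ) := by
      rw [Complex.ofReal_cpow (Nat.cast_nonneg n)]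
      norm_num
    rw [e, ← Complex.ofReal_div, Complex.ofReal_re, Real.rpow_neg (Nat.cast_nonneg n),
      div_eq_mul_inv]
  have hnn : ∀ n : ℕ, 0 ≤ (LSeries.term (fun n => ((f n : ℝ) : ℂ)) (s : ℂ) n).re := by
    intro n
    by_cases hn : n = 0
    · rw [hn, LSeries.term_zero]
      simp
    · rw [hterm n hn]
      exact mul_nonneg (Nat.cast_nonneg _) (Real.rpow_nonneg (Nat.cast_nonneg _) _)
  have hsum : ∑ I ∈ J, ((absNorm I : ℕ) : ℝ) ^ (-s) ≤
      ∑ n ∈ J.image (fun I => absNorm I),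
        (LSeries.term (fun n => ((f n : ℝ) : ℂ)) (s : ℂ) n).re := by
    rw [Finset.sum_comp (fun n : ℕ => (n : ℝ) ^ (-s)) (fun I : Ideal (𝓞 F) => absNorm I)]
    refine Finset.sum_le_sum fun n hn => ?_
    rw [Finset.mem_image] at hn
    obtain ⟨I, hI, hIn⟩ := hn
    have hn0 : n ≠ 0 := by
      intro h0
      rw [h0, Ideal.absNorm_eq_zero_iff] at hIn
      exact hJ I hI hIn
    rw [hterm n hn0, nsmul_eq_mul]
    refine mul_le_mul_of_nonneg_right ?_ (Real.rpow_nonneg (Nat.cast_nonneg _) _)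
    show _ ≤ ((Nat.card {I : Ideal (𝓞 F) // absNorm I = n} : ℕ) : ℝ)
    have hfin : Finite {I : Ideal (𝓞 F) // absNorm I = n} :=
      (finite_setOfPred_absNorm_eq (S := 𝓞 F) n).to_subtype
    have h1 : (J.filter (fun I => absNorm I = n)).card ≤
        Nat.card {I : Ideal (𝓞 F) // absNorm I = n} := by
      rw [← Nat.card_eq_finsetCard]
      refine Nat.card_le_card_of_injective
        (fun x : (J.filter (fun I => absNorm I = n)) =>
          (⟨x.1, (Finset.mem_filter.1 x.2).2⟩ : {I : Ideal (𝓞 F) // absNorm I = n})) ?_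
      intro x y hxy
      exact Subtype.ext (congrArg (fun z : {I : Ideal (𝓞 F) // absNorm I = n} => z.1) hxy)
    exact_mod_cast h1
  exact hsum.trans (sum_le_hasSum _ (fun n _ => hnn n) hre)

end Pool.Agent.ZPK.H28
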